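import Mathlib

/-!
Counting permutations by the descent sets of their inverses and of their products with a fixed
permutation; fundamental quasisymmetric functions.
-/

namespace Q238.MK

open Finset Equiv

variable {n : ℕ}

lemma apply_inv (π : Perm (Fin n)) (x : Fin n) : π (π⁻¹ x) = x := by simp

lemma inv_apply (π : Perm (Fin n)) (x : Fin n) : π⁻¹ (π x) = x := by simp

/-- `b` is increasing on the fibres of `t`. -/
def Inc {α : Type*} (t : Fin n → α) (b : Perm (Fin n)) : Prop :=
  ∀ i j, i < j → t i = t j → b i < b j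

/-- `w` is weakly increasing on the fibres of `r`. -/
def WInc (r w : Fin n → ℕ) : Prop := ∀ i j, i < j → r i = r j → w i ≤ w j

/-- The condition on `w = s ∘ π ∘ b` in the count. -/
def CondW (r : Fin n → ℕ) (b : Perm (Fin n)) (w : Fin n → ℕ) : Prop :=
  WInc r w ∧ Inc (fun i => (r i, w i)) b

lemma lemA {r s : Fin n → ℕ} (hs : Monotone s) (b π : Perm (Fin n)) (h : Inc s π⁻¹) :
    Inc r (π * b) ↔ WInc r (s ∘ ⇑(π * b)) ∧ Inc (fun i => (r i, s ((π * b) i))) b := by
  constructor
  · intro H
    refine ⟨fun i j hij hr => hs (H i j hij hr).le, fun i j hij ht => ?_⟩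
    simp only [Prod.mk.injEq] at ht
    have h1 := H i j hij ht.1
    have h2 := h _ _ h1 ht.2
    simpa [Perm.mul_apply] using h2
  · rintro ⟨h1, h2⟩ i j hij hr
    have h3 := h1 i j hij hr
    rcases lt_or_eq_of_le h3 with h4 | h4
    · by_contra hcon
      have := hs (not_lt.mp hcon)
      simp only [Function.comp] at h4
      omega
    · have h5 := h2 i j hij (by simp only [Prod.mk.injEq]; exact ⟨hr, h4⟩)
      by_contra hcon
      rcases lt_or_eq_of_le (not_lt.mp hcon) with h6 | h6
      · have h7 := h _ _ h6 h4.symm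
        simp only [Perm.mul_apply, inv_apply] at h7
        exact absurd h7 (not_lt.mpr h5.le)
      · have := (π * b).injective h6
        exact absurd this hij.ne'

lemma lemA_one {r s : Fin n → ℕ} (hs : Monotone s) (π : Perm (Fin n)) (h : Inc s π⁻¹) :
    Inc r π ↔ WInc r (s ∘ π) := by
  have h1 := lemA (r := r) hs 1 π h
  simp only [mul_one] at h1
  rw [h1]
  refine ⟨fun h => h.1, fun h => ⟨h, fun i j hij _ => ?_⟩⟩
  simpa using hij

open Classical in
/-- The orbit of `s` under permutations of the positions. -/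
noncomputable def orb (s : Fin n → ℕ) : Finset (Fin n → ℕ) :=
  univ.image (fun κ : Perm (Fin n) => s ∘ κ)

lemma inv_eq_sort {s : Fin n → ℕ} (hs : Monotone s) (b π : Perm (Fin n)) (h : Inc s π⁻¹) :
    π⁻¹ = Tuple.sort ((s ∘ ⇑(π * b)) ∘ (b⁻¹ : Perm (Fin n))) := by
  have e : ((s ∘ ⇑(π * b)) ∘ (b⁻¹ : Perm (Fin n))) ∘ (π⁻¹ : Perm (Fin n)) = s := by
    funext x
    simp
  rw [Tuple.eq_sort_iff]
  refine ⟨by rw [e]; exact hs, fun i j hij hf => h i j hij ?_⟩
  have h1 := congrFun e i
  have h2 := congrFun e j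
  simp only [Function.comp] at h1 h2 hf
  rw [← h1, ← h2]
  exact hf

open Classical in
lemma lemB {s : Fin n → ℕ} (hs : Monotone s) (b : Perm (Fin n)) (C : (Fin n → ℕ) → Prop) :
    (univ.filter (fun π : Perm (Fin n) => Inc s π⁻¹ ∧ C (s ∘ ⇑(π * b)))).card
      = ((orb s).filter C).card := by
  refine Finset.card_bij (fun π _ => s ∘ ⇑(π * b)) ?_ ?_ ?_
  · intro π hπ
    rw [mem_filter] at hπ ⊢
    exact ⟨mem_image.mpr ⟨π * b, mem_univ _, rfl⟩, hπ.2.2⟩
  · intro π₁ h₁ π₂ h₂ heq
    rw [mem_filter] at h₁ h₂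
    have e1 := inv_eq_sort hs b π₁ h₁.2.1
    have e2 := inv_eq_sort hs b π₂ h₂.2.1
    rw [heq, ← e2] at e1
    exact inv_injective e1
  · intro w hw
    rw [mem_filter] at hw
    obtain ⟨hw1, hC⟩ := hw
    obtain ⟨κ, -, rfl⟩ := mem_image.mp hw1
    set f : Fin n → ℕ := (s ∘ κ) ∘ (b⁻¹ : Perm (Fin n)) with hf
    set σ := Tuple.sort f with hσ
    have h1 : Monotone (f ∘ σ) := Tuple.monotone_sort f
    have h2 : f ∘ σ = s := by
      have e : f ∘ σ = s ∘ ⇑(κ * b⁻¹ * σ) := by
        funext x
        simp [hf]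
      have h3 : Monotone (s ∘ ⇑(κ * b⁻¹ * σ)) := by rw [← e]; exact h1
      have h4 : Monotone (s ∘ (1 : Perm (Fin n))) := by
        have : s ∘ (1 : Perm (Fin n)) = s := by funext x; simp
        rw [this]
        exact hs
      rw [e, Tuple.unique_monotone h3 h4]
      funext x
      simp
    have h5 : s ∘ ⇑(σ⁻¹ * b) = s ∘ κ := by
      funext x
      have := congrFun h2 (σ⁻¹ (b x))
      simp only [hf, Function.comp, apply_inv, inv_apply] at this
      simp only [Function.comp, Perm.mul_apply]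
      exact this.symm
    refine ⟨σ⁻¹, ?_, h5⟩
    rw [mem_filter]
    refine ⟨mem_univ _, ?_, by rw [h5]; exact hC⟩
    have h6 := (Tuple.eq_sort_iff (f := f) (σ := σ)).mp hσ
    intro i j hij hs'
    rw [inv_inv]
    refine h6.2 i j hij ?_
    have e1 := congrFun h2 i
    have e2 := congrFun h2 j
    simp only [Function.comp] at e1 e2
    rw [e1, e2, hs']

open Classical in
/-- The Mackey count for the left products. -/
lemma cardL {r s : Fin n → ℕ} (hs : Monotone s) (b : Perm (Fin n)) :
    (univ.filter (fun π : Perm (Fin n) => Inc s π⁻¹ ∧ Inc r (π * b))).card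
      = (univ.filter (fun ρ : Perm (Fin n) => Inc s ρ⁻¹ ∧ Inc r ρ ∧
          Inc (fun i => (r i, s (ρ i))) b)).card := by
  have h1 : univ.filter (fun π : Perm (Fin n) => Inc s π⁻¹ ∧ Inc r (π * b))
      = univ.filter (fun π : Perm (Fin n) => Inc s π⁻¹ ∧
        CondW r b (s ∘ ⇑(π * b))) := by
    refine filter_congr fun π _ => ?_
    refine and_congr_right fun h => ?_
    rw [lemA hs b π h]
    rfl
  have h2 : univ.filter (fun ρ : Perm (Fin n) => Inc s ρ⁻¹ ∧ Inc r ρ ∧
          Inc (fun i => (r i, s (ρ i))) b)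
      = univ.filter (fun π : Perm (Fin n) => Inc s π⁻¹ ∧
        CondW r b (s ∘ ⇑(π * 1))) := by
    refine filter_congr fun π _ => ?_
    refine and_congr_right fun h => ?_
    rw [lemA_one hs π h, mul_one]
    rfl
  rw [h1, h2]
  have e1 := lemB hs b (CondW r b)
  have e2 := lemB hs 1 (CondW r b)
  exact e1.trans e2.symm

open Classical in
/-- The Mackey count for the right products. -/
lemma cardR {r s : Fin n → ℕ} (hr : Monotone r) (b : Perm (Fin n)) :
    (univ.filter (fun π : Perm (Fin n) => Inc s π⁻¹ ∧ Inc r (b * π))).card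
      = (univ.filter (fun ρ : Perm (Fin n) => Inc s ρ⁻¹ ∧ Inc r ρ ∧
          Inc (fun j => (s j, r (ρ⁻¹ j))) b)).card := by
  have h1 : (univ.filter (fun π : Perm (Fin n) => Inc s π⁻¹ ∧ Inc r (b * π))).card
      = (univ.filter (fun π : Perm (Fin n) => Inc r π⁻¹ ∧ Inc s (π * b))).card := by
    refine Finset.card_bij (fun π _ => (b * π)⁻¹) ?_ ?_ ?_
    · intro π hπ
      rw [mem_filter] at hπ ⊢
      refine ⟨mem_univ _, by rw [inv_inv]; exact hπ.2.2, ?_⟩
      have : (b * π)⁻¹ * b = π⁻¹ := by group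
      rw [this]
      exact hπ.2.1
    · intro π₁ _ π₂ _ h
      exact mul_left_cancel (inv_injective h)
    · intro ρ hρ
      rw [mem_filter] at hρ
      refine ⟨b⁻¹ * ρ⁻¹, ?_, by group⟩
      rw [mem_filter]
      refine ⟨mem_univ _, ?_, ?_⟩
      · have : (b⁻¹ * ρ⁻¹)⁻¹ = ρ * b := by group
        rw [this]
        exact hρ.2.2
      · have : b * (b⁻¹ * ρ⁻¹) = ρ⁻¹ := by group
        rw [this]
        exact hρ.2.1
  rw [h1, cardL hr b]
  refine Finset.card_bij (fun ρ _ => ρ⁻¹) ?_ ?_ ?_
  · intro ρ hρ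
    rw [mem_filter] at hρ ⊢
    refine ⟨mem_univ _, by rw [inv_inv]; exact hρ.2.2.1, hρ.2.1, ?_⟩
    rw [inv_inv]
    exact hρ.2.2.2
  · intro π₁ _ π₂ _ h
    exact inv_injective h
  · intro ρ hρ
    rw [mem_filter] at hρ
    refine ⟨ρ⁻¹, ?_, inv_inv ρ⟩
    rw [mem_filter]
    exact ⟨mem_univ _, by rw [inv_inv]; exact hρ.2.2.1, hρ.2.1, hρ.2.2.2⟩

/-- The descent set `{i ∈ [n-1] : π(i) > π(i+1)}` (positions and values of `Fin n` are one less
than those of `[n]`). -/
def Des (π : Perm (Fin n)) : Finset ℕ :=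
  (range n).filter (fun j => ∃ (h : j < n), 1 ≤ j ∧ π ⟨j, h⟩ < π ⟨j - 1, by omega⟩)

lemma mem_Des {π : Perm (Fin n)} {j : ℕ} :
    j ∈ Des π ↔ ∃ (h : j < n), 1 ≤ j ∧ π ⟨j, h⟩ < π ⟨j - 1, by omega⟩ := by
  unfold Des
  rw [mem_filter, mem_range]
  constructor
  · exact fun h => h.2
  · rintro ⟨h, h2⟩
    exact ⟨h, h, h2⟩

/-- `t` jumps at the descents of `b`. -/
def Jump (t : Fin n → ℕ) (D : Finset ℕ) : Prop :=
  ∀ (j : ℕ) (h : j < n), 1 ≤ j → j ∈ D → t ⟨j - 1, by omega⟩ < t ⟨j, h⟩

lemma inc_iff {t : Fin n → ℕ} (ht : Monotone t) (b : Perm (Fin n)) :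
    Inc t b ↔ Jump t (Des b) := by
  constructor
  · intro H j hj h1 hD
    obtain ⟨_, _, h2⟩ := mem_Des.mp hD
    have h3 : t ⟨j - 1, by omega⟩ ≤ t ⟨j, hj⟩ := ht (by simp only [Fin.le_def]; omega)
    rcases lt_or_eq_of_le h3 with h4 | h4
    · exact h4
    · have h5 := H ⟨j - 1, by omega⟩ ⟨j, hj⟩ (by simp only [Fin.lt_def]; omega) h4
      exact absurd h5 (not_lt.mpr h2.le)
  · intro H
    have key : ∀ d : ℕ, ∀ i : ℕ, ∀ (h : i + d + 1 < n),
        t ⟨i, by omega⟩ = t ⟨i + d + 1, h⟩ → b ⟨i, by omega⟩ < b ⟨i + d + 1, h⟩ := by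
      intro d
      induction d with
      | zero =>
        intro i h ht'
        by_contra hcon
        have hne : b ⟨i + 0 + 1, h⟩ ≠ b ⟨i, by omega⟩ := by
          intro he
          have := b.injective he
          simp only [Fin.mk.injEq] at this
          omega
        have hlt := lt_of_le_of_ne (not_lt.mp hcon) hne
        have hmem : i + 0 + 1 ∈ Des b := mem_Des.mpr ⟨h, by omega, by simpa using hlt⟩
        have := H (i + 0 + 1) h (by omega) hmem
        simp only [add_zero, Nat.add_sub_cancel] at this ht'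
        omega
      | succ d ih =>
        intro i h ht'
        have h1 : t ⟨i, by omega⟩ ≤ t ⟨i + 1, by omega⟩ := ht (by simp only [Fin.le_def]; omega)
        have h2 : t ⟨i + 1, by omega⟩ ≤ t ⟨i + (d + 1) + 1, h⟩ :=
          ht (by simp only [Fin.le_def]; omega)
        have h3 : t ⟨i, by omega⟩ = t ⟨i + 1, by omega⟩ := by omega
        have h4 : b ⟨i, by omega⟩ < b ⟨i + 1, by omega⟩ := by
          by_contra hcon
          have hne : b ⟨i + 1, by omega⟩ ≠ b ⟨i, by omega⟩ := by
            intro he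
            have := b.injective he
            simp only [Fin.mk.injEq] at this
            omega
          have hlt := lt_of_le_of_ne (not_lt.mp hcon) hne
          have hmem : i + 1 ∈ Des b := mem_Des.mpr ⟨by omega, by omega, by simpa using hlt⟩
          have := H (i + 1) (by omega) (by omega) hmem
          simp only [Nat.add_sub_cancel] at this
          omega
        have h5 := ih (i + 1) (by omega) (by
          have e : i + 1 + d + 1 = i + (d + 1) + 1 := by omega
          simp only [e]
          omega)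
        have e : i + 1 + d + 1 = i + (d + 1) + 1 := by omega
        simp only [e] at h5
        exact h4.trans h5
    intro i j hij htij
    have h1 : (i : ℕ) < j := hij
    have e : (i : ℕ) + ((j : ℕ) - i - 1) + 1 = j := by omega
    have := key ((j : ℕ) - i - 1) i (by omega) (by simp only [e]; exact htij)
    simp only [e] at this
    exact this

/-- The exponent of the monomial `x_{u 1} ... x_{u n}`. -/
noncomputable def content (u : Fin n → ℕ) : ℕ →₀ ℕ := ∑ i, Finsupp.single (u i) 1

/-- Gessel's fundamental quasisymmetric function: the sum of `x_{u 1} ... x_{u n}` over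
`u 1 ≤ ... ≤ u n` with `u j < u (j+1)` whenever `j ∈ D`. -/
noncomputable def fundQ (n : ℕ) (D : Finset ℕ) : MvPowerSeries ℕ ℤ :=
  fun e => (Nat.card {u : Fin n → ℕ // Monotone u ∧ Jump u D ∧ content u = e} : ℤ)

/-- The generating function `Q(A)` of a multiset of permutations. -/
noncomputable def genQ (A : Multiset (Perm (Fin n))) : MvPowerSeries ℕ ℤ :=
  (A.map (fun π => fundQ n (Des π))).sum

/-- A power series is symmetric when it is invariant under all finite permutations of the
variables. -/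
def IsSym (f : MvPowerSeries ℕ ℤ) : Prop :=
  ∀ σ : Perm ℕ, {x | σ x ≠ x}.Finite → ∀ e : ℕ →₀ ℕ,
    MvPowerSeries.coeff (Finsupp.mapDomain σ e) f = MvPowerSeries.coeff e f

lemma content_apply (u : Fin n → ℕ) (a : ℕ) :
    content u a = (univ.filter (fun i => u i = a)).card := by
  unfold content
  rw [Finsupp.finsetSum_apply, card_filter]
  refine sum_congr rfl fun i _ => ?_
  rw [Finsupp.single_apply]

lemma monotone_unique {u t : Fin n → ℕ} (hu : Monotone u) (ht : Monotone t)
    (h : content u = content t) : u = t := by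
  have hm : (univ : Finset (Fin n)).val.map u = (univ : Finset (Fin n)).val.map t := by
    ext a
    rw [Multiset.count_map, Multiset.count_map]
    have h1 := DFunLike.congr_fun h a
    rw [content_apply, content_apply] at h1
    have e : ∀ v : Fin n → ℕ, (Multiset.filter (fun b => a = v b) (univ : Finset (Fin n)).val).card
        = (univ.filter (fun i => v i = a)).card := by
      intro v
      rw [Finset.card_def, Finset.filter_val]
      congr 1
      refine Multiset.filter_congr fun x _ => ?_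
      exact eq_comm
    rw [e, e, h1]
  have hl : List.ofFn u = List.ofFn t := by
    refine List.Perm.eq_of_pairwise' hu.sortedLE_ofFn.pairwise ht.sortedLE_ofFn.pairwise ?_
    · rw [← Multiset.coe_eq_coe]
      have e : ∀ v : Fin n → ℕ, ((List.ofFn v : List ℕ) : Multiset ℕ)
          = (univ : Finset (Fin n)).val.map v := by
        intro v
        rw [Fin.univ_val_map]
      rw [e, e, hm]
  exact List.ofFn_injective hl

end Q238.MK
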