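import Pool.Agent.Q238.MK.Base

/-!
Coefficients of the generating function of a multiset of permutations.
-/

namespace Q238.MK

open Finset Equiv

variable {n : ℕ}

open Classical in
/-- The number of `b ∈ B` which are increasing on the fibres of `t`. -/
noncomputable def num {α : Type*} (B : Multiset (Perm (Fin n))) (t : Fin n → α) : ℕ :=
  (B.filter (fun b => Inc t b)).card

/-- The multiset of products `a * b`. -/
def mulMS (A B : Multiset (Perm (Fin n))) : Multiset (Perm (Fin n)) :=
  (A ×ˢ B).map (fun p => p.1 * p.2)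

open Classical in
lemma coeff_fundQ {t : Fin n → ℕ} (ht : Monotone t) (b : Perm (Fin n)) :
    MvPowerSeries.coeff (content t) (fundQ n (Des b)) = if Inc t b then 1 else 0 := by
  change (Nat.card {u : Fin n → ℕ // Monotone u ∧ Jump u (Des b) ∧ content u = content t} : ℤ) = _
  split_ifs with h
  · have : Nat.card {u : Fin n → ℕ // Monotone u ∧ Jump u (Des b) ∧ content u = content t} = 1 := by
      rw [Nat.card_eq_one_iff_unique]
      refine ⟨⟨?_⟩, ⟨⟨t, ht, (inc_iff ht b).mp h, rfl⟩⟩⟩
      rintro ⟨u, hu, -, hu2⟩ ⟨v, hv, -, hv2⟩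
      simp only [Subtype.mk.injEq]
      exact monotone_unique hu hv (hu2.trans hv2.symm)
    rw [this]
    rfl
  · have : IsEmpty {u : Fin n → ℕ // Monotone u ∧ Jump u (Des b) ∧ content u = content t} := by
      refine ⟨?_⟩
      rintro ⟨u, hu, hj, hu2⟩
      have e := monotone_unique hu ht hu2
      subst e
      exact h ((inc_iff hu b).mpr hj)
    rw [Nat.card_of_isEmpty]
    rfl

lemma coeff_fundQ_zero {e : ℕ →₀ ℕ} (he : ∀ t : Fin n → ℕ, Monotone t → content t ≠ e)
    (D : Finset ℕ) : MvPowerSeries.coeff e (fundQ n D) = 0 := by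
  change (Nat.card {u : Fin n → ℕ // Monotone u ∧ Jump u D ∧ content u = e} : ℤ) = _
  have : IsEmpty {u : Fin n → ℕ // Monotone u ∧ Jump u D ∧ content u = e} := by
    refine ⟨?_⟩
    rintro ⟨u, hu, -, hu2⟩
    exact he u hu hu2
  rw [Nat.card_of_isEmpty]
  rfl

lemma coeff_genQ_cons (e : ℕ →₀ ℕ) (a : Perm (Fin n)) (A : Multiset (Perm (Fin n))) :
    MvPowerSeries.coeff e (genQ (a ::ₘ A))
      = MvPowerSeries.coeff e (fundQ n (Des a)) + MvPowerSeries.coeff e (genQ A) := by
  unfold genQ
  rw [Multiset.map_cons, Multiset.sum_cons, map_add]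

lemma coeff_genQ {t : Fin n → ℕ} (ht : Monotone t) (A : Multiset (Perm (Fin n))) :
    MvPowerSeries.coeff (content t) (genQ A) = (num A t : ℤ) := by
  classical
  induction A using Multiset.induction_on with
  | empty => simp [genQ, num]
  | cons a A ih =>
    rw [coeff_genQ_cons, ih, coeff_fundQ ht]
    unfold num
    by_cases h : Inc t a
    · rw [if_pos h, Multiset.filter_cons_of_pos _ h, Multiset.card_cons]
      push_cast
      ring
    · rw [if_neg h, Multiset.filter_cons_of_neg _ h, zero_add]

lemma coeff_genQ_zero {e : ℕ →₀ ℕ} (he : ∀ t : Fin n → ℕ, Monotone t → content t ≠ e)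
    (A : Multiset (Perm (Fin n))) : MvPowerSeries.coeff e (genQ A) = 0 := by
  induction A using Multiset.induction_on with
  | empty => simp [genQ]
  | cons a A ih => rw [coeff_genQ_cons, ih, coeff_fundQ_zero he, zero_add]

lemma genQ_eq_iff (A B : Multiset (Perm (Fin n))) :
    genQ A = genQ B ↔ ∀ t : Fin n → ℕ, Monotone t → num A t = num B t := by
  constructor
  · intro h t ht
    have := congrArg (MvPowerSeries.coeff (content t)) h
    rw [coeff_genQ ht, coeff_genQ ht] at this
    exact_mod_cast this
  · intro h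
    ext e
    by_cases he : ∃ t : Fin n → ℕ, Monotone t ∧ content t = e
    · obtain ⟨t, ht, rfl⟩ := he
      rw [coeff_genQ ht, coeff_genQ ht, h t ht]
    · push Not at he
      rw [coeff_genQ_zero he, coeff_genQ_zero he]

open Classical in
lemma num_mulMS_left {α : Type*} (B D : Multiset (Perm (Fin n))) (t : Fin n → α) :
    num (mulMS B D) t = (B.map (fun b => (D.filter (fun π => Inc t (b * π))).card)).sum := by
  induction B using Multiset.induction_on with
  | empty => simp [mulMS, num]
  | cons b B ih =>
    rw [Multiset.map_cons, Multiset.sum_cons, ← ih]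
    unfold mulMS num
    rw [Multiset.cons_product, Multiset.map_add, Multiset.filter_add, Multiset.card_add]
    congr 1
    rw [Multiset.map_map, Multiset.filter_map, Multiset.card_map]
    rfl

open Classical in
lemma num_mulMS_right {α : Type*} (B D : Multiset (Perm (Fin n))) (t : Fin n → α) :
    num (mulMS D B) t = (B.map (fun b => (D.filter (fun π => Inc t (π * b))).card)).sum := by
  induction B using Multiset.induction_on with
  | empty => simp [mulMS, num]
  | cons b B ih =>
    rw [Multiset.map_cons, Multiset.sum_cons, ← ih]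
    unfold mulMS num
    rw [Multiset.product_cons, Multiset.map_add, Multiset.filter_add, Multiset.card_add]
    congr 1
    rw [Multiset.map_map, Multiset.filter_map, Multiset.card_map]
    rfl

/-- The step function of a set `K`. -/
def step (K : Finset ℕ) (v : Fin n) : ℕ := (K.filter (fun c => c ≤ (v : ℕ))).card

lemma step_mono (K : Finset ℕ) : Monotone (step (n := n) K) := by
  intro a b hab
  refine card_le_card ?_
  intro c hc
  rw [mem_filter] at hc ⊢
  exact ⟨hc.1, hc.2.trans hab⟩

lemma step_lt_iff (K : Finset ℕ) (j : ℕ) (h : j < n) (h1 : 1 ≤ j) :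
    step (n := n) K ⟨j - 1, by omega⟩ < step K ⟨j, h⟩ ↔ j ∈ K := by
  unfold step
  dsimp only
  constructor
  · intro hlt
    by_contra hj
    refine absurd hlt (not_lt.mpr (card_le_card ?_))
    intro c hc
    rw [mem_filter] at hc ⊢
    refine ⟨hc.1, ?_⟩
    have : c ≠ j := by
      rintro rfl
      exact hj hc.1
    omega
  · intro hj
    refine card_lt_card ?_
    rw [Finset.ssubset_iff_of_subset]
    · refine ⟨j, mem_filter.mpr ⟨hj, le_rfl⟩, ?_⟩
      rw [mem_filter]
      rintro ⟨-, h2⟩
      omega
    · intro c hc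
      rw [mem_filter] at hc ⊢
      exact ⟨hc.1, by omega⟩

lemma des_subset_iff (K : Finset ℕ) (π : Perm (Fin n)) :
    Des π ⊆ K ↔ Inc (step (n := n) K) π := by
  rw [inc_iff (step_mono K)]
  constructor
  · intro h j hj h1 hD
    exact (step_lt_iff K j hj h1).mpr (h hD)
  · intro h j hD
    obtain ⟨hj, h1, -⟩ := mem_Des.mp hD
    exact (step_lt_iff K j hj h1).mp (h j hj h1 hD)

open Classical in
/-- The inverse descent class. -/
noncomputable def invDes (n : ℕ) (J : Finset ℕ) : Multiset (Perm (Fin n)) :=
  (univ.filter (fun π : Perm (Fin n) => Des π⁻¹ = J)).val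

open Classical in
lemma sum_powerset (K : Finset ℕ) (P : Perm (Fin n) → Prop) :
    ∑ J ∈ K.powerset, (((invDes n J).filter P).card : ℤ)
      = ((univ.filter (fun π : Perm (Fin n) => Inc (step (n := n) K) π⁻¹ ∧ P π)).card : ℤ) := by
  have h := card_eq_sum_card_fiberwise (f := fun π : Perm (Fin n) => Des π⁻¹)
    (s := univ.filter (fun π : Perm (Fin n) => Inc (step (n := n) K) π⁻¹ ∧ P π))
    (t := K.powerset) (by
      intro π hπ
      rw [mem_coe, mem_filter] at hπ
      rw [mem_coe, mem_powerset]
      exact (des_subset_iff K π⁻¹).mpr hπ.2.1)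
  rw [h]
  push_cast
  refine sum_congr rfl fun J hJ => ?_
  unfold invDes
  rw [← Finset.filter_val, ← Finset.card_def]
  congr 2
  ext π
  simp only [mem_filter, mem_univ, true_and]
  rw [mem_powerset] at hJ
  constructor
  · rintro ⟨h1, h2⟩
    refine ⟨⟨(des_subset_iff K π⁻¹).mp ?_, h2⟩, h1⟩
    rw [h1]
    exact hJ
  · rintro ⟨⟨-, h2⟩, h1⟩
    exact ⟨h1, h2⟩

lemma eq_zero_of_sum_powerset (φ : Finset ℕ → ℤ) (h : ∀ K : Finset ℕ, ∑ J ∈ K.powerset, φ J = 0) :
    ∀ K, φ K = 0 := by
  classical
  intro K
  induction K using Finset.strongInduction with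
  | H K ih =>
    have h1 := h K
    rw [← Finset.insert_erase (Finset.mem_powerset_self K), Finset.sum_insert (by simp)] at h1
    have h2 : ∑ J ∈ K.powerset.erase K, φ J = 0 := by
      refine Finset.sum_eq_zero fun J hJ => ih J ?_
      rw [Finset.mem_erase, Finset.mem_powerset] at hJ
      exact hJ.2.ssubset_of_ne hJ.1
    rw [h2, add_zero] at h1
    exact h1

end Q238.MK
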