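import Pool.Agent.Q238.MK.Count

/-!
Functions that are weakly increasing on the fibres of a monotone function, and the exchange of a
maximal entry with the last entry.
-/

namespace Q238.MK

open Finset Equiv

variable {n : ℕ}

/-- The multiset of values of `t`. -/
def cont {α : Type*} (t : Fin n → α) : Multiset α := (univ : Finset (Fin n)).val.map t

lemma cont_comp {α : Type*} (t : Fin n → α) (σ : Perm (Fin n)) : cont (t ∘ σ) = cont t := by
  unfold cont
  rw [← Multiset.map_map]
  congr 1
  have := Finset.map_univ_equiv σ
  have h2 := congrArg Finset.val this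
  rw [Finset.map_val] at h2
  exact h2

lemma cont_unique {α : Type*} [PartialOrder α] {t u : Fin n → α} (ht : Monotone t)
    (hu : Monotone u) (h : cont t = cont u) : t = u := by
  have hl : List.ofFn t = List.ofFn u := by
    refine List.Perm.eq_of_pairwise' ht.sortedLE_ofFn.pairwise hu.sortedLE_ofFn.pairwise ?_
    rw [← Multiset.coe_eq_coe]
    have e : ∀ v : Fin n → α, ((List.ofFn v : List α) : Multiset α) = cont v := by
      intro v
      unfold cont
      rw [Fin.univ_val_map]
    rw [e, e, h]
  exact List.ofFn_injective hl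

/-- Two functions which agree outside two positions. -/
lemma cont_update {α : Type*} {u v : Fin n → α} {p q : Fin n} (hpq : p ≠ q)
    (h : ∀ x, x ≠ p → x ≠ q → u x = v x) :
    cont u + {v p, v q} = cont v + {u p, u q} := by
  classical
  have hu : (univ : Finset (Fin n)) = insert p (insert q (univ \ {p, q})) := by
    ext x
    simp only [mem_univ, mem_insert, mem_sdiff, mem_singleton, true_and, true_iff]
    tauto
  have e : ∀ w : Fin n → α, cont w = {w p, w q} + ((univ \ {p, q} : Finset (Fin n)).val.map w) := by
    intro w
    unfold cont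
    conv_lhs => rw [hu]
    rw [Finset.insert_val_of_notMem (by simp [hpq]), Finset.insert_val_of_notMem (by simp),
      Multiset.map_cons, Multiset.map_cons]
    rfl
  rw [e u, e v]
  have e2 : ((univ \ {p, q} : Finset (Fin n)).val.map u)
      = ((univ \ {p, q} : Finset (Fin n)).val.map v) := by
    refine Multiset.map_congr rfl fun x hx => ?_
    simp only [Finset.mem_val, mem_sdiff, mem_univ, mem_insert, mem_singleton, true_and,
      not_or] at hx
    exact h x hx.1 hx.2
  rw [e2]
  abel

/-- The pair function in the lexicographic order. -/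
def pr (s w : Fin n → ℕ) (x : Fin n) : ℕ ×ₗ ℕ := toLex (s x, w x)

lemma pr_eq_iff {s w : Fin n → ℕ} {x y : Fin n} : pr s w x = pr s w y ↔ s x = s y ∧ w x = w y := by
  unfold pr
  rw [EmbeddingLike.apply_eq_iff_eq, Prod.mk.injEq]

lemma pr_le_iff {s w : Fin n → ℕ} {x y : Fin n} :
    pr s w x ≤ pr s w y ↔ s x < s y ∨ s x = s y ∧ w x ≤ w y := by
  unfold pr
  rw [Prod.Lex.toLex_le_toLex]

lemma mono_pr_iff {s w : Fin n → ℕ} (hs : Monotone s) : Monotone (pr s w) ↔ WInc s w := by
  constructor
  · intro h i j hij he
    have := h hij.le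
    rw [pr_le_iff] at this
    rcases this with h1 | h1
    · omega
    · exact h1.2
  · intro h i j hij
    rw [pr_le_iff]
    rcases eq_or_lt_of_le hij with h1 | h1
    · right
      rw [h1]
      exact ⟨rfl, le_rfl⟩
    · rcases eq_or_lt_of_le (hs hij) with h2 | h2
      · right
        exact ⟨h2, h i j h1 h2⟩
      · left
        exact h2

lemma srt_exists {s : Fin n → ℕ} (hs : Monotone s) (u : Fin n → ℕ) :
    ∃ w : Fin n → ℕ, Monotone (pr s w) ∧ cont (pr s w) = cont (pr s u) ∧ cont w = cont u := by
  set σ := Tuple.sort (pr s u) with hσ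
  have h1 : Monotone (pr s u ∘ σ) := Tuple.monotone_sort _
  have h2 : Monotone (s ∘ σ) := by
    intro i j hij
    have := h1 hij
    simp only [Function.comp] at this
    rw [pr_le_iff] at this
    simp only [Function.comp]
    rcases this with h | h
    · exact h.le
    · exact h.1.le
  have h3 : s ∘ σ = s := by
    have h4 : Monotone (s ∘ (1 : Perm (Fin n))) := by
      have : s ∘ (1 : Perm (Fin n)) = s := by
        funext x
        simp
      rw [this]
      exact hs
    rw [Tuple.unique_monotone h2 h4]
    funext x
    simp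
  have h5 : pr s (u ∘ σ) = pr s u ∘ σ := by
    funext x
    have := congrFun h3 x
    simp only [Function.comp] at this
    simp only [pr, Function.comp, this]
  refine ⟨u ∘ σ, by rw [h5]; exact h1, ?_, cont_comp u σ⟩
  rw [h5, cont_comp]

open Classical in
lemma mem_orb {r w : Fin n → ℕ} : w ∈ orb r ↔ cont w = cont r := by
  unfold orb
  rw [mem_image]
  constructor
  · rintro ⟨κ, -, rfl⟩
    exact cont_comp r κ
  · intro h
    have h1 : Monotone (w ∘ Tuple.sort w) := Tuple.monotone_sort _
    have h2 : Monotone (r ∘ Tuple.sort r) := Tuple.monotone_sort _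
    have h3 : w ∘ Tuple.sort w = r ∘ Tuple.sort r := by
      refine cont_unique h1 h2 ?_
      rw [cont_comp, cont_comp, h]
    refine ⟨Tuple.sort r * (Tuple.sort w)⁻¹, mem_univ _, ?_⟩
    funext x
    have := congrFun h3 ((Tuple.sort w)⁻¹ x)
    simp only [Function.comp, apply_inv] at this
    simp only [Function.comp, Perm.mul_apply]
    exact this.symm

lemma mem_cont_iff {α : Type*} {t : Fin n → α} {a : α} : a ∈ cont t ↔ ∃ x, t x = a := by
  unfold cont
  simp

lemma cont_snd {s w : Fin n → ℕ} : (cont (pr s w)).map (fun z => (ofLex z).2) = cont w := by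
  unfold cont
  rw [Multiset.map_map]
  rfl

end Q238.MK
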