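import Pool.Agent.Q238.MK.Lex

/-!
The exchange bijection behind the identity for rotations.
-/

namespace Q238.MK

open Finset Equiv

variable {m : ℕ}

lemma swap_cont (s w : Fin (m + 1) → ℕ) {p : Fin (m + 1)} (hp : p ≠ Fin.last m) :
    cont (pr s w) + {toLex (s p, w (Fin.last m)), toLex (s (Fin.last m), w p)}
      = cont (pr s (w ∘ swap p (Fin.last m)))
        + {toLex (s p, w p), toLex (s (Fin.last m), w (Fin.last m))} := by
  have h := cont_update (u := pr s w) (v := pr s (w ∘ swap p (Fin.last m))) hp (by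
    intro x h1 h2
    simp only [pr, Function.comp, swap_apply_of_ne_of_ne h1 h2])
  simpa only [pr, Function.comp, swap_apply_left, swap_apply_right] using h

/-- The last entry is determined by the content. -/
lemma last_val {s w u : Fin (m + 1) → ℕ} (htop : ∀ x, x ≠ Fin.last m → s x < s (Fin.last m))
    (h : cont (pr s w) = cont (pr s u)) : w (Fin.last m) = u (Fin.last m) := by
  have h1 : pr s u (Fin.last m) ∈ cont (pr s w) := by
    rw [h, mem_cont_iff]
    exact ⟨_, rfl⟩
  obtain ⟨x, hx⟩ := mem_cont_iff.mp h1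
  unfold pr at hx
  rw [EmbeddingLike.apply_eq_iff_eq, Prod.mk.injEq] at hx
  have : x = Fin.last m := by
    by_contra hne
    exact absurd hx.1 (htop x hne).ne
  rw [this] at hx
  exact hx.2

/-- The functions with last entry not maximal. -/
def InU (s r w : Fin (m + 1) → ℕ) : Prop :=
  Monotone (pr s w) ∧ w (Fin.last m) ≠ r (Fin.last m)

/-- The pairs (position, function). -/
def InV (s r : Fin (m + 1) → ℕ) (p : Fin (m + 1)) (w : Fin (m + 1) → ℕ) : Prop :=
  p ≠ Fin.last m ∧ Monotone (pr s w) ∧ w (Fin.last m) = r (Fin.last m) ∧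
    (∀ x, x ≤ p → w x ≠ r (Fin.last m)) ∧ (∀ y, p < y → pr s w y ≠ pr s w p)

lemma min_row {s w w' : Fin (m + 1) → ℕ} {R : ℕ} (hs : Monotone s) {p : Fin (m + 1)}
    (h4 : ∀ x, x ≤ p → w x ≠ R)
    (hc : cont (pr s w') = cont (pr s (w ∘ swap p (Fin.last m)))) {x : Fin (m + 1)}
    (hx : w' x = R) : s p ≤ s x := by
  have h1 : toLex (s x, R) ∈ cont (pr s (w ∘ swap p (Fin.last m))) := by
    rw [← hc, mem_cont_iff]
    exact ⟨x, by rw [← hx]; rfl⟩
  obtain ⟨y, hy⟩ := mem_cont_iff.mp h1
  unfold pr at hy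
  rw [EmbeddingLike.apply_eq_iff_eq, Prod.mk.injEq] at hy
  obtain ⟨hy1, hy2⟩ := hy
  rw [← hy1]
  by_cases e1 : y = p
  · rw [e1]
  · by_cases e2 : y = Fin.last m
    · rw [e2]
      exact hs (Fin.le_last p)
    · simp only [Function.comp, swap_apply_of_ne_of_ne e1 e2] at hy2
      refine hs (le_of_lt ?_)
      by_contra hcon
      exact h4 y (not_lt.mp hcon) hy2

lemma exists_row {s w w' : Fin (m + 1) → ℕ} {R : ℕ} {p : Fin (m + 1)}
    (h3 : w (Fin.last m) = R)
    (hc : cont (pr s w') = cont (pr s (w ∘ swap p (Fin.last m)))) :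
    ∃ x, s x = s p ∧ w' x = R := by
  have h1 : toLex (s p, R) ∈ cont (pr s w') := by
    rw [hc, mem_cont_iff]
    refine ⟨p, ?_⟩
    simp only [pr, Function.comp, swap_apply_left, h3]
  obtain ⟨x, hx⟩ := mem_cont_iff.mp h1
  unfold pr at hx
  rw [EmbeddingLike.apply_eq_iff_eq, Prod.mk.injEq] at hx
  exact ⟨x, hx.1, hx.2⟩

open Classical in
lemma card_U_eq_card_V {s r : Fin (m + 1) → ℕ} (hs : Monotone s) (hr : Monotone r)
    (htop : ∀ x, x ≠ Fin.last m → s x < s (Fin.last m)) :
    (((univ : Finset (Fin (m + 1))) ×ˢ orb r).filter (fun z => InV s r z.1 z.2)).card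
      = ((orb r).filter (fun w => InU s r w)).card := by
  set R := r (Fin.last m) with hR
  have hmax : ∀ w ∈ orb r, ∀ x, w x ≤ R := by
    intro w hw x
    have h1 : w x ∈ cont r := by
      rw [← mem_orb.mp hw, mem_cont_iff]
      exact ⟨x, rfl⟩
    obtain ⟨y, hy⟩ := mem_cont_iff.mp h1
    rw [← hy]
    exact hr (Fin.le_last y)
  have hch : ∀ z : Fin (m + 1) × (Fin (m + 1) → ℕ), ∃ w' : Fin (m + 1) → ℕ,
      Monotone (pr s w') ∧ cont (pr s w') = cont (pr s (z.2 ∘ swap z.1 (Fin.last m))) ∧
        cont w' = cont (z.2 ∘ swap z.1 (Fin.last m)) := fun z => srt_exists hs _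
  choose Φ hΦ1 hΦ2 hΦ3 using hch
  refine Finset.card_bij (fun z _ => Φ z) ?_ ?_ ?_
  · rintro ⟨p, w⟩ hz
    rw [mem_filter, mem_product] at hz
    obtain ⟨⟨-, hw⟩, h1, h2, h3, h4, h5⟩ := hz
    rw [mem_filter]
    dsimp only at hw h1 h2 h3 h4 h5 ⊢
    refine ⟨?_, hΦ1 _, ?_⟩
    · rw [mem_orb, hΦ3, cont_comp]
      exact mem_orb.mp hw
    · rw [last_val htop (hΦ2 _)]
      simp only [Function.comp, swap_apply_right]
      exact h4 p le_rfl
  · rintro ⟨p₁, w₁⟩ hz₁ ⟨p₂, w₂⟩ hz₂ heq
    rw [mem_filter, mem_product] at hz₁ hz₂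
    obtain ⟨⟨-, hw₁⟩, a1, a2, a3, a4, a5⟩ := hz₁
    obtain ⟨⟨-, hw₂⟩, b1, b2, b3, b4, b5⟩ := hz₂
    dsimp only at hw₁ a1 a2 a3 a4 a5 hw₂ b1 b2 b3 b4 b5 heq
    have c1 := hΦ2 (p₁, w₁)
    have c2 := hΦ2 (p₂, w₂)
    dsimp only at c1 c2
    rw [heq] at c1
    have j1 := last_val htop c1
    have j2 := last_val htop c2
    simp only [Function.comp, swap_apply_right] at j1 j2
    have hj : w₁ p₁ = w₂ p₂ := by rw [← j1, ← j2]
    have hrow : s p₁ = s p₂ := by
      obtain ⟨x, hx1, hx2⟩ := exists_row (R := R) a3 c1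
      obtain ⟨y, hy1, hy2⟩ := exists_row (R := R) b3 c2
      have e1 := min_row hs a4 c1 hy2
      have e2 := min_row hs b4 c2 hx2
      omega
    have s1 := swap_cont s w₁ a1
    have s2 := swap_cont s w₂ b1
    rw [← c1, a3, ← hR] at s1
    rw [← c2, b3, ← hR, ← hj, ← hrow] at s2
    rw [← s2] at s1
    have hcc := add_right_cancel s1
    have hpr := cont_unique a2 b2 hcc
    have hw : w₁ = w₂ := by
      funext x
      have := congrFun hpr x
      unfold pr at this
      rw [EmbeddingLike.apply_eq_iff_eq, Prod.mk.injEq] at this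
      exact this.2
    subst hw
    have hpp : pr s w₁ p₁ = pr s w₁ p₂ := pr_eq_iff.mpr ⟨hrow, hj⟩
    have hp : p₁ = p₂ := by
      rcases lt_trichotomy p₁ p₂ with h | h | h
      · exact absurd hpp.symm (a5 p₂ h)
      · exact h
      · exact absurd hpp (b5 p₁ h)
    rw [hp]
  · intro w' hw'
    rw [mem_filter] at hw'
    obtain ⟨hwo, hm', hl'⟩ := hw'
    rw [← hR] at hl'
    -- the first position with the maximal value
    have hne : (univ.filter (fun x => w' x = R)).Nonempty := by
      have h1 : R ∈ cont w' := by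
        rw [mem_orb.mp hwo, mem_cont_iff]
        exact ⟨_, rfl⟩
      obtain ⟨x, hx⟩ := mem_cont_iff.mp h1
      exact ⟨x, by simp [hx]⟩
    set x₀ := (univ.filter (fun x => w' x = R)).min' hne with hx₀
    have hx₀R : w' x₀ = R := by
      have := Finset.min'_mem _ hne
      rw [mem_filter] at this
      exact this.2
    have hx₀min : ∀ x, w' x = R → x₀ ≤ x := fun x hx => Finset.min'_le _ _ (by simp [hx])
    have hx₀l : x₀ ≠ Fin.last m := by
      intro h
      rw [h] at hx₀R
      exact hl' hx₀R
    obtain ⟨w, hw1, hw2, hw3⟩ := srt_exists hs (w' ∘ swap x₀ (Fin.last m))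
    have hwl : w (Fin.last m) = R := by
      rw [last_val htop hw2]
      simp only [Function.comp, swap_apply_right]
      exact hx₀R
    have hwo' : w ∈ orb r := by
      rw [mem_orb, hw3, cont_comp]
      exact mem_orb.mp hwo
    set j := w' (Fin.last m) with hj
    have hjR : j < R := lt_of_le_of_ne (hmax w' hwo _) hl'
    have hne2 : (univ.filter (fun x => pr s w x = toLex (s x₀, j))).Nonempty := by
      have h1 : toLex (s x₀, j) ∈ cont (pr s w) := by
        rw [hw2, mem_cont_iff]
        refine ⟨x₀, ?_⟩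
        simp only [pr, Function.comp, swap_apply_left, hj]
      obtain ⟨x, hx⟩ := mem_cont_iff.mp h1
      exact ⟨x, by simp [hx]⟩
    set p := (univ.filter (fun x => pr s w x = toLex (s x₀, j))).max' hne2 with hp
    have hpp : pr s w p = toLex (s x₀, j) := by
      have := Finset.max'_mem _ hne2
      rw [mem_filter] at this
      exact this.2
    have hpmax : ∀ x, pr s w x = toLex (s x₀, j) → x ≤ p :=
      fun x hx => Finset.le_max' _ _ (by simp [hx])
    have hpp2 : s p = s x₀ ∧ w p = j := by
      have := hpp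
      unfold pr at this
      rw [EmbeddingLike.apply_eq_iff_eq, Prod.mk.injEq] at this
      exact this
    have hpl : p ≠ Fin.last m := by
      intro h
      have h1 := htop x₀ hx₀l
      rw [← hpp2.1, h] at h1
      exact lt_irrefl _ h1
    have hV : InV s r p w := by
      refine ⟨hpl, hw1, hwl, ?_, ?_⟩
      · intro x hxp hxR
        rw [← hR] at hxR
        have h1 : toLex (s x, R) ∈ cont (pr s (w' ∘ swap x₀ (Fin.last m))) := by
          rw [← hw2, mem_cont_iff]
          exact ⟨x, by rw [← hxR]; rfl⟩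
        obtain ⟨y, hy⟩ := mem_cont_iff.mp h1
        unfold pr at hy
        rw [EmbeddingLike.apply_eq_iff_eq, Prod.mk.injEq] at hy
        obtain ⟨hy1, hy2⟩ := hy
        have hsx : s x ≤ s x₀ := by
          rw [← hpp2.1]
          exact hs hxp
        have hyl : y ≠ Fin.last m := by
          intro h
          have h1 := htop x₀ hx₀l
          rw [← h, hy1] at h1
          omega
        have hy0 : y ≠ x₀ := by
          intro h
          rw [h] at hy2
          simp only [Function.comp, swap_apply_left] at hy2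
          exact hl' hy2
        simp only [Function.comp, swap_apply_of_ne_of_ne hy0 hyl] at hy2
        have h2 := hs (hx₀min y hy2)
        have h3 : s x = s p := by
          rw [hpp2.1]
          omega
        have h4 := hw1 hxp
        rw [pr_le_iff] at h4
        rcases h4 with h4 | h4
        · omega
        · have := h4.2
          rw [hpp2.2] at this
          omega
      · intro y hy he
        rw [hpp] at he
        exact absurd (hpmax y he) (not_le.mpr hy)
    refine ⟨(p, w), ?_, ?_⟩
    · rw [mem_filter, mem_product]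
      exact ⟨⟨mem_univ _, hwo'⟩, hV⟩
    · have c1 := hΦ2 (p, w)
      dsimp only at c1 ⊢
      have s1 := swap_cont s w hpl
      have s2 := swap_cont s w' hx₀l
      rw [← c1, hwl, hpp2.1, hpp2.2] at s1
      rw [← hw2, hx₀R, ← hj] at s2
      have hcc : cont (pr s (Φ (p, w))) = cont (pr s w') := by
        have h1 : cont (pr s (Φ (p, w))) + {toLex (s x₀, j), toLex (s (Fin.last m), R)}
            + {toLex (s x₀, R), toLex (s (Fin.last m), j)}
            = cont (pr s w') + {toLex (s x₀, j), toLex (s (Fin.last m), R)}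
            + {toLex (s x₀, R), toLex (s (Fin.last m), j)} := by
          rw [← s1, s2]
        exact add_right_cancel (add_right_cancel h1)
      have hpr := cont_unique (hΦ1 _) hm' hcc
      funext x
      have := congrFun hpr x
      unfold pr at this
      rw [EmbeddingLike.apply_eq_iff_eq, Prod.mk.injEq] at this
      exact this.2

end Q238.MK
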