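import Pool.Agent.Q238.MK.Rot

/-!
The two counts for products with powers of the rotation.
-/

namespace Q238.MK

open Finset Equiv

variable {m : ℕ}

lemma rot_val (i : ℕ) (x : Fin (m + 1)) :
    (((finRotate (m + 1) ^ i : Perm (Fin (m + 1))) x : Fin (m + 1)) : ℕ) = (x + i) % (m + 1) := by
  induction i with
  | zero => simp [Nat.mod_eq_of_lt x.isLt]
  | succ i ih =>
    rw [pow_succ', Perm.mul_apply, finRotate_apply, Fin.val_add, ih]
    rcases Nat.eq_zero_or_pos m with h | h
    · subst h
      simp [Nat.mod_one]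
    · have : ((1 : Fin (m + 1)) : ℕ) = 1 := by
        rw [Fin.val_one']
        exact Nat.mod_eq_of_lt (by omega)
      rw [this, Nat.mod_add_mod]
      rfl

lemma rot_rev (i : Fin (m + 1)) :
    (finRotate (m + 1) ^ (i : ℕ) : Perm (Fin (m + 1))) (Fin.rev i) = Fin.last m := by
  apply Fin.ext
  rw [rot_val, Fin.val_rev, Fin.val_last]
  have := i.isLt
  rw [show m + 1 - ((i : ℕ) + 1) + (i : ℕ) = m by omega]
  exact Nat.mod_eq_of_lt (by omega)

/-- Order reversals of a power of the rotation happen only across one place. -/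
lemma rot_lt_iff (i : Fin (m + 1)) {x y : Fin (m + 1)} (hxy : x < y) :
    (finRotate (m + 1) ^ (i : ℕ) : Perm (Fin (m + 1))) x
        < (finRotate (m + 1) ^ (i : ℕ) : Perm (Fin (m + 1))) y
      ↔ ¬ (x ≤ Fin.rev i ∧ Fin.rev i < y) := by
  rw [Fin.lt_def, rot_val, rot_val, Fin.le_def, Fin.lt_def, Fin.val_rev]
  have hi := i.isLt
  have hx := x.isLt
  have hy := y.isLt
  have h1 : (x : ℕ) < y := hxy
  by_cases hx2 : (x : ℕ) + i < m + 1
  · rw [Nat.mod_eq_of_lt hx2]
    by_cases hy2 : (y : ℕ) + i < m + 1
    · rw [Nat.mod_eq_of_lt hy2]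
      constructor
      · intro _
        omega
      · intro _
        omega
    · rw [Nat.mod_eq_sub_mod (not_lt.mp hy2), Nat.mod_eq_of_lt (by omega)]
      constructor
      · intro _
        omega
      · intro h
        omega
  · rw [Nat.mod_eq_sub_mod (not_lt.mp hx2), Nat.mod_eq_of_lt (by omega),
      Nat.mod_eq_sub_mod (show m + 1 ≤ (y : ℕ) + i by omega), Nat.mod_eq_of_lt (by omega)]
    constructor
    · intro _
      omega
    · intro _
      omega

open Classical in
lemma sum_rev (f : Fin (m + 1) → ℕ) : ∑ i, f (Fin.rev i) = ∑ i, f i :=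
  Equiv.sum_comp Fin.revPerm f

open Classical in
lemma count1 {r s : Fin (m + 1) → ℕ} (hr : Monotone r) (hs : Monotone s)
    (htop : ∀ x, x ≠ Fin.last m → s x < s (Fin.last m)) :
    ∑ i : Fin (m + 1), (univ.filter (fun π : Perm (Fin (m + 1)) =>
        Inc s π⁻¹ ∧ (π (Fin.last m) = Fin.last m ∧ Inc r (π * finRotate (m + 1) ^ (i : ℕ))))).card
      = ((orb s).filter (fun w => WInc r w)).card := by
  have huniq : ∀ w ∈ orb s, (univ.filter (fun p => w p = s (Fin.last m))).card = 1 := by
    intro w hw
    obtain ⟨κ, -, rfl⟩ := mem_image.mp hw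
    rw [card_eq_one]
    refine ⟨κ⁻¹ (Fin.last m), ?_⟩
    ext p
    rw [mem_filter, mem_singleton]
    constructor
    · rintro ⟨-, h⟩
      have : κ p = Fin.last m := by
        by_contra hne
        exact absurd h (htop _ hne).ne
      rw [← this, inv_apply]
    · rintro rfl
      exact ⟨mem_univ _, by simp only [Function.comp, apply_inv]⟩
  have step1 : ∀ i : Fin (m + 1), (univ.filter (fun π : Perm (Fin (m + 1)) =>
        Inc s π⁻¹ ∧ (π (Fin.last m) = Fin.last m ∧
          Inc r (π * finRotate (m + 1) ^ (i : ℕ))))).card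
      = ((orb s).filter (fun w => WInc r w ∧ w (Fin.rev i) = s (Fin.last m))).card := by
    intro i
    have h1 := lemB hs (finRotate (m + 1) ^ (i : ℕ))
      (fun w => WInc r w ∧ Inc (fun x => (r x, w x)) (finRotate (m + 1) ^ (i : ℕ) : Perm _) ∧
        w (Fin.rev i) = s (Fin.last m))
    have h2 : (orb s).filter (fun w => WInc r w ∧ w (Fin.rev i) = s (Fin.last m))
        = (orb s).filter (fun w => WInc r w ∧
          Inc (fun x => (r x, w x)) (finRotate (m + 1) ^ (i : ℕ) : Perm _) ∧
            w (Fin.rev i) = s (Fin.last m)) := by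
      refine filter_congr fun w hw => ?_
      constructor
      · rintro ⟨hw1, hw2⟩
        refine ⟨hw1, ?_, hw2⟩
        intro x y hxy he
        simp only [Prod.mk.injEq] at he
        rw [rot_lt_iff i hxy]
        rintro ⟨h3, h4⟩
        have e1 : w x = w (Fin.rev i) := by
          have a1 : r x ≤ r (Fin.rev i) := hr h3
          have a2 : r (Fin.rev i) ≤ r y := hr h4.le
          rcases eq_or_lt_of_le h3 with h5 | h5
          · rw [h5]
          · have a3 := hw1 x (Fin.rev i) h5 (by omega)
            have a4 := hw1 (Fin.rev i) y h4 (by omega)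
            omega
        have h6 := huniq w hw
        rw [card_eq_one] at h6
        obtain ⟨a, ha⟩ := h6
        have b1 : x ∈ univ.filter (fun p => w p = s (Fin.last m)) := by
          rw [mem_filter]
          exact ⟨mem_univ _, e1.trans hw2⟩
        have b2 : y ∈ univ.filter (fun p => w p = s (Fin.last m)) := by
          rw [mem_filter]
          exact ⟨mem_univ _, he.2 ▸ (e1.trans hw2)⟩
        rw [ha, mem_singleton] at b1 b2
        rw [b1, b2] at hxy
        exact lt_irrefl _ hxy
      · rintro ⟨hw1, -, hw2⟩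
        exact ⟨hw1, hw2⟩
    rw [h2]
    have h3 : univ.filter (fun π : Perm (Fin (m + 1)) =>
        Inc s π⁻¹ ∧ (π (Fin.last m) = Fin.last m ∧ Inc r (π * finRotate (m + 1) ^ (i : ℕ))))
        = univ.filter (fun π : Perm (Fin (m + 1)) => Inc s π⁻¹ ∧
          (WInc r (s ∘ ⇑(π * finRotate (m + 1) ^ (i : ℕ))) ∧
            Inc (fun x => (r x, (s ∘ ⇑(π * finRotate (m + 1) ^ (i : ℕ))) x))
              (finRotate (m + 1) ^ (i : ℕ) : Perm _) ∧
            (s ∘ ⇑(π * finRotate (m + 1) ^ (i : ℕ))) (Fin.rev i) = s (Fin.last m))) := by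
      refine filter_congr fun π _ => and_congr_right fun h => ?_
      rw [lemA hs _ π h]
      have e : (s ∘ ⇑(π * finRotate (m + 1) ^ (i : ℕ))) (Fin.rev i) = s (π (Fin.last m)) := by
        simp only [Function.comp, Perm.mul_apply, rot_rev]
      have e2 : s (π (Fin.last m)) = s (Fin.last m) ↔ π (Fin.last m) = Fin.last m := by
        constructor
        · intro h'
          by_contra hne
          exact absurd h' (htop _ hne).ne
        · intro h'
          rw [h']
      rw [e, e2]
      constructor
      · rintro ⟨h1, h2, h3⟩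
        exact ⟨h2, h3, h1⟩
      · rintro ⟨h2, h3, h1⟩
        exact ⟨h1, h2, h3⟩
    rw [h3]
    convert h1 using 2 <;> (ext x; simp only [mem_filter])
  rw [sum_congr rfl fun i _ => step1 i]
  rw [sum_rev (fun i => ((orb s).filter (fun w => WInc r w ∧ w i = s (Fin.last m))).card)]
  have h4 : ∀ i : Fin (m + 1), ((orb s).filter (fun w => WInc r w ∧ w i = s (Fin.last m))).card
      = ∑ w ∈ (orb s).filter (fun w => WInc r w), if w i = s (Fin.last m) then 1 else 0 := by
    intro i
    rw [← card_filter, filter_filter]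
  rw [sum_congr rfl fun i _ => h4 i, sum_comm, card_eq_sum_ones]
  refine sum_congr rfl fun w hw => ?_
  rw [← card_filter]
  exact huniq w (mem_filter.mp hw).1

open Classical in
lemma count2_aux {r s : Fin (m + 1) → ℕ} (hr : Monotone r) (hs : Monotone s)
    (b : Perm (Fin (m + 1))) :
    (univ.filter (fun π : Perm (Fin (m + 1)) =>
        Inc s π⁻¹ ∧ (π (Fin.last m) = Fin.last m ∧ Inc r (b * π)))).card
      = ((orb r).filter (fun w => Monotone (pr s w) ∧ Inc (fun x => (s x, w x)) b ∧
          w (Fin.last m) = r (Fin.last m) ∧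
          ∀ x, b (Fin.last m) < b x → w x ≠ r (Fin.last m))).card := by
  have h1 : (univ.filter (fun π : Perm (Fin (m + 1)) =>
        Inc s π⁻¹ ∧ (π (Fin.last m) = Fin.last m ∧ Inc r (b * π)))).card
      = (univ.filter (fun π : Perm (Fin (m + 1)) =>
        Inc r π⁻¹ ∧ (π (b (Fin.last m)) = Fin.last m ∧ Inc s (π * b)))).card := by
    refine Finset.card_bij (fun π _ => (b * π)⁻¹) ?_ ?_ ?_
    · intro π hπ
      rw [mem_filter] at hπ ⊢
      refine ⟨mem_univ _, by rw [_root_.inv_inv]; exact hπ.2.2.2, ?_, ?_⟩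
      · have : (b * π) (Fin.last m) = b (Fin.last m) := by
          rw [Perm.mul_apply, hπ.2.2.1]
        rw [← this, inv_apply]
      · have : (b * π)⁻¹ * b = π⁻¹ := by group
        rw [this]
        exact hπ.2.1
    · intro π₁ _ π₂ _ h
      exact mul_left_cancel (inv_injective h)
    · intro ρ hρ
      rw [mem_filter] at hρ
      refine ⟨b⁻¹ * ρ⁻¹, ?_, by group⟩
      rw [mem_filter]
      refine ⟨mem_univ _, ?_, ?_, ?_⟩
      · have : (b⁻¹ * ρ⁻¹)⁻¹ = ρ * b := by group
        rw [this]
        exact hρ.2.2.2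
      · rw [Perm.mul_apply]
        have h5 : ρ⁻¹ (ρ (b (Fin.last m))) = b (Fin.last m) := inv_apply _ _
        rw [hρ.2.2.1] at h5
        rw [h5, inv_apply]
      · have : b * (b⁻¹ * ρ⁻¹) = ρ⁻¹ := by group
        rw [this]
        exact hρ.2.1
  rw [h1]
  have h2 := lemB hr b (fun w => WInc s w ∧ Inc (fun x => (s x, w x)) b ∧
          w (Fin.last m) = r (Fin.last m) ∧
          ∀ x, b (Fin.last m) < b x → w x ≠ r (Fin.last m))
  have h3 : (orb r).filter (fun w => Monotone (pr s w) ∧ Inc (fun x => (s x, w x)) b ∧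
          w (Fin.last m) = r (Fin.last m) ∧
          ∀ x, b (Fin.last m) < b x → w x ≠ r (Fin.last m))
      = (orb r).filter (fun w => WInc s w ∧ Inc (fun x => (s x, w x)) b ∧
          w (Fin.last m) = r (Fin.last m) ∧
          ∀ x, b (Fin.last m) < b x → w x ≠ r (Fin.last m)) := by
    refine filter_congr fun w _ => ?_
    rw [mono_pr_iff hs]
  have h4 : univ.filter (fun π : Perm (Fin (m + 1)) =>
        Inc r π⁻¹ ∧ (π (b (Fin.last m)) = Fin.last m ∧ Inc s (π * b)))
      = univ.filter (fun π : Perm (Fin (m + 1)) =>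
        Inc r π⁻¹ ∧ (WInc s (r ∘ ⇑(π * b)) ∧ Inc (fun x => (s x, (r ∘ ⇑(π * b)) x)) b ∧
          (r ∘ ⇑(π * b)) (Fin.last m) = r (Fin.last m) ∧
          ∀ x, b (Fin.last m) < b x → (r ∘ ⇑(π * b)) x ≠ r (Fin.last m))) := by
    refine filter_congr fun π _ => and_congr_right fun h => ?_
    rw [lemA hr b π h]
    have key : π (b (Fin.last m)) = Fin.last m ↔
        ((r ∘ ⇑(π * b)) (Fin.last m) = r (Fin.last m) ∧
          ∀ x, b (Fin.last m) < b x → (r ∘ ⇑(π * b)) x ≠ r (Fin.last m)) := by
      simp only [Function.comp, Perm.mul_apply]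
      constructor
      · intro h'
        refine ⟨by rw [h'], fun x hx he => ?_⟩
        have hne : π (b x) ≠ Fin.last m := by
          intro h''
          rw [← h'] at h''
          exact absurd (π.injective h'') hx.ne'
        have hlt : π (b x) < Fin.last m := lt_of_le_of_ne (Fin.le_last _) hne
        have := h _ _ hlt he
        rw [inv_apply, ← h', inv_apply] at this
        exact absurd this (not_lt.mpr hx.le)
      · rintro ⟨h5, h6⟩
        by_contra hne
        have hlt : π (b (Fin.last m)) < Fin.last m := lt_of_le_of_ne (Fin.le_last _) hne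
        have h7 := h _ _ hlt h5
        rw [inv_apply] at h7
        refine h6 (b⁻¹ (π⁻¹ (Fin.last m))) ?_ ?_
        · rw [apply_inv]
          exact h7
        · rw [apply_inv, apply_inv]
    rw [key]
    constructor
    · rintro ⟨⟨h5, h6⟩, h7, h8⟩
      exact ⟨h7, h8, h5, h6⟩
    · rintro ⟨h7, h8, h5, h6⟩
      exact ⟨⟨h5, h6⟩, h7, h8⟩
  rw [h3, h4]
  convert h2 using 2 <;> (ext x; simp only [mem_filter])

open Classical in
lemma count2 {r s : Fin (m + 1) → ℕ} (hr : Monotone r) (hs : Monotone s)
    (htop : ∀ x, x ≠ Fin.last m → s x < s (Fin.last m)) :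
    ∑ i : Fin (m + 1), (univ.filter (fun π : Perm (Fin (m + 1)) =>
        Inc s π⁻¹ ∧ (π (Fin.last m) = Fin.last m ∧ Inc r (finRotate (m + 1) ^ (i : ℕ) * π)))).card
      = ((orb r).filter (fun w => WInc s w)).card := by
  have h0 : ∀ i : Fin (m + 1), (univ.filter (fun π : Perm (Fin (m + 1)) =>
        Inc s π⁻¹ ∧ (π (Fin.last m) = Fin.last m ∧
          Inc r (finRotate (m + 1) ^ (i : ℕ) * π)))).card
      = (if i = 0 then ((orb r).filter (fun w => Monotone (pr s w) ∧
          w (Fin.last m) = r (Fin.last m))).card else 0)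
        + ((orb r).filter (fun w => InV s r (Fin.rev i) w)).card := by
    intro i
    rw [count2_aux hr hs]
    by_cases hi : i = 0
    · subst hi
      rw [if_pos rfl]
      have e1 : (orb r).filter (fun w => InV s r (Fin.rev 0) w) = ∅ := by
        rw [filter_eq_empty_iff]
        intro w _ hw
        exact hw.1 (by rw [Fin.rev_zero])
      rw [e1, card_empty, add_zero]
      congr 1
      refine filter_congr fun w _ => ?_
      simp only [Fin.val_zero, pow_zero, Perm.one_apply]
      constructor
      · rintro ⟨h1, -, h3, -⟩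
        exact ⟨h1, h3⟩
      · rintro ⟨h1, h3⟩
        exact ⟨h1, fun _ _ h _ => h, h3, fun x hx => absurd hx (not_lt.mpr (Fin.le_last x))⟩
    · rw [if_neg hi, zero_add]
      congr 1
      refine filter_congr fun w _ => ?_
      have hi0 : 0 < (i : ℕ) := by
        rcases Nat.eq_zero_or_pos (i : ℕ) with h | h
        · exact absurd (Fin.ext h) hi
        · exact h
      have hrl : Fin.rev i ≠ Fin.last m := by
        intro h
        have := congrArg Fin.val h
        rw [Fin.val_rev, Fin.val_last] at this
        have := i.isLt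
        omega
      have hrev : Fin.rev i < Fin.last m := lt_of_le_of_ne (Fin.le_last _) hrl
      have hb : ∀ x, (finRotate (m + 1) ^ (i : ℕ) : Perm (Fin (m + 1))) (Fin.last m)
          < (finRotate (m + 1) ^ (i : ℕ) : Perm (Fin (m + 1))) x ↔ x ≤ Fin.rev i := by
        intro x
        rcases eq_or_lt_of_le (Fin.le_last x) with hx | hx
        · rw [hx]
          constructor
          · intro h
            exact absurd h (lt_irrefl _)
          · intro h
            exact absurd hrev (not_lt.mpr h)
        · have h1 := rot_lt_iff i hx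
          have h2 : (finRotate (m + 1) ^ (i : ℕ) : Perm (Fin (m + 1))) x
              ≠ (finRotate (m + 1) ^ (i : ℕ) : Perm (Fin (m + 1))) (Fin.last m) := by
            intro h
            exact absurd ((finRotate (m + 1) ^ (i : ℕ) : Perm (Fin (m + 1))).injective h) hx.ne
          constructor
          · intro h
            by_contra hcon
            exact absurd (h1.mpr (fun hh => hcon hh.1)) (not_lt.mpr h.le)
          · intro h
            have h3 : ¬ ((finRotate (m + 1) ^ (i : ℕ) : Perm (Fin (m + 1))) x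
              < (finRotate (m + 1) ^ (i : ℕ) : Perm (Fin (m + 1))) (Fin.last m)) := by
              rw [h1, not_not]
              exact ⟨h, hrev⟩
            exact lt_of_le_of_ne (not_lt.mp h3) h2.symm
      unfold InV
      constructor
      · rintro ⟨h1, h2, h3, h4⟩
        refine ⟨hrl, h1, h3, fun x hx => h4 x ((hb x).mpr hx), fun y hy he => ?_⟩
        have h5 := h2 (Fin.rev i) y hy (by
          rw [pr_eq_iff] at he
          simp only [Prod.mk.injEq]
          exact ⟨he.1.symm, he.2.symm⟩)
        rw [rot_lt_iff i hy] at h5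
        exact h5 ⟨le_rfl, hy⟩
      · rintro ⟨-, h1, h3, h4, h5⟩
        refine ⟨h1, fun x y hxy he => ?_, h3, fun x hx => h4 x ((hb x).mp hx)⟩
        rw [rot_lt_iff i hxy]
        rintro ⟨h6, h7⟩
        simp only [Prod.mk.injEq] at he
        have e1 : pr s w x = pr s w y := pr_eq_iff.mpr he
        have e2 := h1 h6
        have e3 := h1 h7.le
        rw [e1] at e2
        exact h5 y h7 (le_antisymm e2 e3)
  rw [sum_congr rfl fun i _ => h0 i, sum_add_distrib,
    sum_rev (fun p => ((orb r).filter (fun w => InV s r p w)).card)]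
  have h1 : ∑ i : Fin (m + 1), (if i = 0 then ((orb r).filter (fun w => Monotone (pr s w) ∧
          w (Fin.last m) = r (Fin.last m))).card else 0)
      = ((orb r).filter (fun w => Monotone (pr s w) ∧
          w (Fin.last m) = r (Fin.last m))).card := by
    rw [Finset.sum_ite_eq' univ 0, if_pos (mem_univ _)]
  have h2 : ∑ p : Fin (m + 1), ((orb r).filter (fun w => InV s r p w)).card
      = (((univ : Finset (Fin (m + 1))) ×ˢ orb r).filter (fun z => InV s r z.1 z.2)).card := by
    rw [card_filter, sum_product]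
    refine sum_congr rfl fun p _ => ?_
    rw [card_filter]
  rw [h1, h2, card_U_eq_card_V hs hr htop]
  have h3 : (orb r).filter (fun w => WInc s w)
      = (orb r).filter (fun w => Monotone (pr s w) ∧ w (Fin.last m) = r (Fin.last m))
        ∪ (orb r).filter (fun w => InU s r w) := by
    ext w
    simp only [mem_filter, mem_union, InU, mono_pr_iff hs]
    tauto
  rw [h3, card_union_of_disjoint]
  rw [Finset.disjoint_left]
  intro w hw hw2
  rw [mem_filter] at hw hw2
  exact hw2.2.2 hw.2.2

open Classical in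
lemma orb_symm {n : ℕ} {r s : Fin n → ℕ} (hr : Monotone r) (hs : Monotone s) :
    ((orb r).filter (fun w => WInc s w)).card = ((orb s).filter (fun w => WInc r w)).card := by
  rw [← lemB hr 1 (fun w => WInc s w), ← lemB hs 1 (fun w => WInc r w)]
  have e1 : univ.filter (fun π : Perm (Fin n) => Inc r π⁻¹ ∧ WInc s (r ∘ ⇑(π * 1)))
      = univ.filter (fun π : Perm (Fin n) => Inc r π⁻¹ ∧ Inc s π) := by
    refine filter_congr fun π _ => and_congr_right fun h => ?_
    rw [lemA_one hr π h, mul_one]
  have e2 : univ.filter (fun π : Perm (Fin n) => Inc s π⁻¹ ∧ WInc r (s ∘ ⇑(π * 1)))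
      = univ.filter (fun π : Perm (Fin n) => Inc s π⁻¹ ∧ Inc r π) := by
    refine filter_congr fun π _ => and_congr_right fun h => ?_
    rw [lemA_one hs π h, mul_one]
  rw [e1, e2]
  refine Finset.card_bij (fun π _ => π⁻¹) ?_ ?_ ?_
  · intro π hπ
    rw [mem_filter] at hπ ⊢
    exact ⟨mem_univ _, by rw [_root_.inv_inv]; exact hπ.2.2, hπ.2.1⟩
  · intro π₁ _ π₂ _ h
    exact inv_injective h
  · intro π hπ
    rw [mem_filter] at hπ
    refine ⟨π⁻¹, ?_, _root_.inv_inv π⟩
    rw [mem_filter]
    exact ⟨mem_univ _, by rw [_root_.inv_inv]; exact hπ.2.2, hπ.2.1⟩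

end Q238.MK
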