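import Pool.Agent.Q238.MK.Rot2

/-!
Rotations of inverse descent classes.
-/

namespace Q238.MK

open Finset Equiv

variable {m : ℕ}

/-- The element of `S_{m+1}` that acts as `π ∈ S_m` on the first `m` numbers and fixes the last. -/
def fixLast (π : Perm (Fin m)) : Perm (Fin (m + 1)) where
  toFun := Fin.lastCases (Fin.last m) (fun i => (π i).castSucc)
  invFun := Fin.lastCases (Fin.last m) (fun i => (π.symm i).castSucc)
  left_inv := by
    intro x
    refine Fin.lastCases ?_ (fun i => ?_) x
    · simp
    · simp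
  right_inv := by
    intro x
    refine Fin.lastCases ?_ (fun i => ?_) x
    · simp
    · simp

lemma fixLast_last (π : Perm (Fin m)) : fixLast π (Fin.last m) = Fin.last m := by
  change Fin.lastCases (motive := fun _ => Fin (m + 1)) _ _ _ = _
  simp

lemma fixLast_castSucc (π : Perm (Fin m)) (i : Fin m) :
    fixLast π i.castSucc = (π i).castSucc := by
  change Fin.lastCases (motive := fun _ => Fin (m + 1)) _ _ _ = _
  simp

lemma fixLast_inv (π : Perm (Fin m)) : (fixLast π)⁻¹ = fixLast π⁻¹ := by
  rw [inv_eq_iff_mul_eq_one]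
  ext x
  refine Fin.lastCases ?_ (fun i => ?_) x
  · simp [fixLast_last]
  · simp [fixLast_castSucc]

lemma fixLast_injective : Function.Injective (fixLast (m := m)) := by
  intro π₁ π₂ h
  ext i
  have := congrArg (fun π : Perm (Fin (m + 1)) => ((π i.castSucc : Fin (m + 1)) : ℕ)) h
  simpa [fixLast_castSucc] using this

lemma exists_fixLast {π : Perm (Fin (m + 1))} (h : π (Fin.last m) = Fin.last m) :
    ∃ π' : Perm (Fin m), fixLast π' = π := by
  have h1 : ∀ i : Fin m, π i.castSucc ≠ Fin.last m := by
    intro i hi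
    rw [← h] at hi
    exact (Fin.castSucc_lt_last i).ne (π.injective hi)
  have h2 : ∀ i : Fin m, π⁻¹ i.castSucc ≠ Fin.last m := by
    intro i hi
    have := congrArg π hi
    rw [apply_inv, h] at this
    exact (Fin.castSucc_lt_last i).ne this
  refine ⟨⟨fun i => (π i.castSucc).castPred (h1 i), fun i => (π⁻¹ i.castSucc).castPred (h2 i),
    fun i => ?_, fun i => ?_⟩, ?_⟩
  · apply Fin.castSucc_injective
    rw [Fin.castSucc_castPred, Fin.castSucc_castPred, inv_apply]
  · apply Fin.castSucc_injective
    rw [Fin.castSucc_castPred, Fin.castSucc_castPred, apply_inv]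
  · ext x
    refine Fin.lastCases ?_ (fun i => ?_) x
    · rw [fixLast_last, h]
    · rw [fixLast_castSucc]
      rfl

lemma des_fixLast (π : Perm (Fin m)) : Des (fixLast π) = Des π := by
  ext j
  rw [mem_Des, mem_Des]
  constructor
  · rintro ⟨h, h1, h2⟩
    have hj : j < m := by
      by_contra hcon
      have e : (⟨j, h⟩ : Fin (m + 1)) = Fin.last m := by
        apply Fin.ext
        rw [Fin.val_last]
        dsimp only
        omega
      rw [e, fixLast_last] at h2
      exact absurd h2 (not_lt.mpr (Fin.le_last _))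
    refine ⟨hj, h1, ?_⟩
    have e1 : (⟨j, h⟩ : Fin (m + 1)) = (⟨j, hj⟩ : Fin m).castSucc := rfl
    have e2 : (⟨j - 1, by omega⟩ : Fin (m + 1)) = (⟨j - 1, by omega⟩ : Fin m).castSucc := rfl
    rw [e1, e2, fixLast_castSucc, fixLast_castSucc] at h2
    exact h2
  · rintro ⟨h, h1, h2⟩
    refine ⟨by omega, h1, ?_⟩
    have e1 : (⟨j, by omega⟩ : Fin (m + 1)) = (⟨j, h⟩ : Fin m).castSucc := rfl
    have e2 : (⟨j - 1, by omega⟩ : Fin (m + 1)) = (⟨j - 1, by omega⟩ : Fin m).castSucc := rfl
    rw [e1, e2, fixLast_castSucc, fixLast_castSucc]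
    exact h2

/-- The inverse descent class of `S_m`, as a multiset (a set) of elements of `S_{m+1}` which fix the
last number. -/
noncomputable def invDesFix (m : ℕ) (J : Finset ℕ) : Multiset (Perm (Fin (m + 1))) :=
  (invDes m J).map fixLast

open Classical in
/-- The cyclic group generated by the `n`-cycle, as a multiset (a set). -/
noncomputable def cyc (n : ℕ) : Multiset (Perm (Fin n)) :=
  (univ.filter (fun b : Perm (Fin n) => b ∈ Subgroup.zpowers (finRotate n))).val

open Classical in
lemma invDesFix_eq (J : Finset ℕ) :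
    invDesFix m J = (invDes (m + 1) J).filter (fun π => π (Fin.last m) = Fin.last m) := by
  unfold invDesFix invDes
  rw [← Finset.filter_val]
  have h : ((univ.filter (fun π : Perm (Fin m) => Des π⁻¹ = J)).map
      ⟨fixLast, fixLast_injective⟩)
      = (univ.filter (fun π : Perm (Fin (m + 1)) => Des π⁻¹ = J)).filter
        (fun π => π (Fin.last m) = Fin.last m) := by
    ext π
    simp only [mem_map, mem_filter, mem_univ, true_and, Function.Embedding.coeFn_mk]
    constructor
    · rintro ⟨π', h1, rfl⟩
      refine ⟨?_, fixLast_last π'⟩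
      rw [fixLast_inv, des_fixLast, h1]
    · rintro ⟨h1, h2⟩
      obtain ⟨π', rfl⟩ := exists_fixLast h2
      refine ⟨π', ?_, rfl⟩
      rw [fixLast_inv, des_fixLast] at h1
      exact h1
  have h2 := congrArg Finset.val h
  rw [Finset.map_val] at h2
  exact h2

lemma order_rot (m : ℕ) : orderOf (finRotate (m + 2)) = m + 2 := by
  rw [(isCycle_finRotate (n := m)).orderOf, support_finRotate, card_univ, Fintype.card_fin]

open Classical in
lemma cyc_eq (m : ℕ) : cyc (m + 2)
    = (univ : Finset (Fin (m + 2))).val.map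
      (fun i : Fin (m + 2) => finRotate (m + 2) ^ (i : ℕ)) := by
  have hinj : Function.Injective (fun i : Fin (m + 2) => finRotate (m + 2) ^ (i : ℕ)) := by
    intro i j h
    have h1 : (i : ℕ) < orderOf (finRotate (m + 2)) := by rw [order_rot]; exact i.isLt
    have h2 : (j : ℕ) < orderOf (finRotate (m + 2)) := by rw [order_rot]; exact j.isLt
    exact Fin.ext (pow_injOn_Iio_orderOf h1 h2 h)
  have h : (univ : Finset (Fin (m + 2))).map ⟨_, hinj⟩
      = univ.filter (fun b : Perm (Fin (m + 2)) => b ∈ Subgroup.zpowers (finRotate (m + 2))) := by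
    ext b
    simp only [mem_map, mem_filter, mem_univ, true_and, Function.Embedding.coeFn_mk]
    rw [mem_zpowers_iff_mem_range_orderOf, mem_image]
    constructor
    · rintro ⟨i, rfl⟩
      exact ⟨i, by rw [mem_range, order_rot]; exact i.isLt, rfl⟩
    · rintro ⟨i, hi, rfl⟩
      rw [mem_range, order_rot] at hi
      exact ⟨⟨i, hi⟩, rfl⟩
  have h2 := congrArg Finset.val h
  rw [Finset.map_val] at h2
  exact h2.symm

lemma last_notMem_des {π : Perm (Fin (m + 1))} (h : π (Fin.last m) = Fin.last m) :
    m ∉ Des π := by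
  intro hm
  obtain ⟨h1, h2, h3⟩ := mem_Des.mp hm
  have e : (⟨m, h1⟩ : Fin (m + 1)) = Fin.last m := rfl
  rw [e, h] at h3
  exact absurd h3 (not_lt.mpr (Fin.le_last _))

lemma inc_step_insert (K : Finset ℕ) {π : Perm (Fin (m + 1))} (h : π (Fin.last m) = Fin.last m) :
    Inc (step (n := m + 1) K) π ↔ Inc (step (n := m + 1) (insert m K)) π := by
  rw [← des_subset_iff, ← des_subset_iff]
  constructor
  · intro h1
    exact h1.trans (subset_insert _ _)
  · intro h1 x hx
    rcases mem_insert.mp (h1 hx) with h2 | h2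
    · subst h2
      exact absurd hx (last_notMem_des h)
    · exact h2

lemma step_top (K : Finset ℕ) (hm : 1 ≤ m) (x : Fin (m + 1)) (hx : x ≠ Fin.last m) :
    step (n := m + 1) (insert m K) x < step (n := m + 1) (insert m K) (Fin.last m) := by
  have h1 := (step_lt_iff (n := m + 1) (insert m K) m (Nat.lt_succ_self m) hm).mpr
    (mem_insert_self _ _)
  have h2 : x ≤ ⟨m - 1, by omega⟩ := by
    have : (x : ℕ) ≠ m := fun h => hx (Fin.ext (by rw [h, Fin.val_last]))
    have := x.isLt
    rw [Fin.le_def]
    dsimp only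
    omega
  exact lt_of_le_of_lt (step_mono _ h2) h1

lemma fix_inv {π : Perm (Fin (m + 1))} :
    π (Fin.last m) = Fin.last m ↔ π⁻¹ (Fin.last m) = Fin.last m := by
  constructor
  · intro h
    have := inv_apply π (Fin.last m)
    rwa [h] at this
  · intro h
    have := apply_inv π (Fin.last m)
    rwa [h] at this

open Classical in
lemma sum_powerset_fix (K : Finset ℕ) (P : Perm (Fin (m + 1)) → Prop) :
    ∑ J ∈ K.powerset, (((invDesFix m J).filter P).card : ℤ)
      = ((univ.filter (fun π : Perm (Fin (m + 1)) =>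
          Inc (step (n := m + 1) (insert m K)) π⁻¹ ∧ (π (Fin.last m) = Fin.last m ∧ P π))).card
            : ℤ) := by
  obtain ⟨Q, hQ⟩ : ∃ Q : Perm (Fin (m + 1)) → Prop, ∀ π, Q π ↔
      (π (Fin.last m) = Fin.last m ∧ P π) := ⟨_, fun _ => Iff.rfl⟩
  have h := sum_powerset (n := m + 1) K Q
  have e1 : ∀ J, (((invDesFix m J).filter P).card : ℤ)
      = (((invDes (m + 1) J).filter Q).card : ℤ) := by
    intro J
    rw [invDesFix_eq, Multiset.filter_filter]
    congr 2
    refine Multiset.filter_congr fun π _ => ?_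
    rw [hQ]
    tauto
  rw [sum_congr rfl fun J _ => e1 J, h]
  congr 2
  refine filter_congr fun π _ => ?_
  rw [hQ]
  constructor
  · rintro ⟨h1, h2, h3⟩
    exact ⟨(inc_step_insert K (fix_inv.mp h2)).mp h1, h2, h3⟩
  · rintro ⟨h1, h2, h3⟩
    exact ⟨(inc_step_insert K (fix_inv.mp h2)).mpr h1, h2, h3⟩

theorem main_rot (m : ℕ) (J : Finset ℕ) :
    genQ (mulMS (cyc (m + 2)) (invDesFix (m + 1) J))
      = genQ (mulMS (invDesFix (m + 1) J) (cyc (m + 2))) := by
  classical
  rw [genQ_eq_iff]
  intro r hr
  have key := eq_zero_of_sum_powerset (fun J =>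
    (num (mulMS (cyc (m + 2)) (invDesFix (m + 1) J)) r : ℤ)
    - (num (mulMS (invDesFix (m + 1) J) (cyc (m + 2))) r : ℤ)) ?_ J
  · have : (num (mulMS (cyc (m + 2)) (invDesFix (m + 1) J)) r : ℤ)
        = num (mulMS (invDesFix (m + 1) J) (cyc (m + 2))) r := by
      linarith [key]
    exact_mod_cast this
  · intro K
    rw [sum_sub_distrib]
    set s : Fin (m + 2) → ℕ := step (insert (m + 1) K) with hs
    have hsm : Monotone s := step_mono _
    have htop : ∀ x, x ≠ Fin.last (m + 1) → s x < s (Fin.last (m + 1)) :=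
      fun x hx => step_top (m := m + 1) K (by omega) x hx
    have L1 : ∑ J ∈ K.powerset, (num (mulMS (cyc (m + 2)) (invDesFix (m + 1) J)) r : ℤ)
        = (((orb r).filter (fun w => WInc s w)).card : ℤ) := by
      rw [← count2 hr hsm htop]
      push_cast
      have e : ∀ J : Finset ℕ, (num (mulMS (cyc (m + 2)) (invDesFix (m + 1) J)) r : ℤ)
          = ∑ i : Fin (m + 2), (((invDesFix (m + 1) J).filter
            (fun π => Inc r (finRotate (m + 2) ^ (i : ℕ) * π))).card : ℤ) := by
        intro J
        rw [num_mulMS_left, cyc_eq, Multiset.map_map]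
        push_cast
        rw [Multiset.map_map]
        rfl
      rw [sum_congr rfl fun J _ => e J, sum_comm]
      refine sum_congr rfl fun i _ => ?_
      rw [sum_powerset_fix]
    have L2 : ∑ J ∈ K.powerset, (num (mulMS (invDesFix (m + 1) J) (cyc (m + 2))) r : ℤ)
        = (((orb s).filter (fun w => WInc r w)).card : ℤ) := by
      rw [← count1 hr hsm htop]
      push_cast
      have e : ∀ J : Finset ℕ, (num (mulMS (invDesFix (m + 1) J) (cyc (m + 2))) r : ℤ)
          = ∑ i : Fin (m + 2), (((invDesFix (m + 1) J).filter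
            (fun π => Inc r (π * finRotate (m + 2) ^ (i : ℕ)))).card : ℤ) := by
        intro J
        rw [num_mulMS_right, cyc_eq, Multiset.map_map]
        push_cast
        rw [Multiset.map_map]
        rfl
      rw [sum_congr rfl fun J _ => e J, sum_comm]
      refine sum_congr rfl fun i _ => ?_
      rw [sum_powerset_fix]
    rw [L1, L2, orb_symm hr hsm, sub_self]

end Q238.MK
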