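import Pool.Agent.Q238.MK.Count

/-!
The two products have the same generating function.
-/

namespace Q238.MK

open Finset Equiv

variable {n : ℕ}

/-- Exchange the two base-`K` digits of a number below `K²`. -/
def swapFun (K x : ℕ) : ℕ := if x < K * K then (x % K) * K + x / K else x

lemma swapFun_apply {K a b : ℕ} (ha : a < K) (hb : b < K) :
    swapFun K (a * K + b) = b * K + a := by
  unfold swapFun
  have hlt : a * K + b < K * K := by
    have : (a + 1) * K ≤ K * K := Nat.mul_le_mul_right K ha
    nlinarith
  rw [if_pos hlt]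
  have h1 : (a * K + b) % K = b := by
    rw [add_comm, Nat.add_mul_mod_self_right, Nat.mod_eq_of_lt hb]
  have h2 : (a * K + b) / K = a := by
    rw [add_comm, Nat.add_mul_div_right _ _ (by omega), Nat.div_eq_of_lt hb, zero_add]
  rw [h1, h2]

lemma swapFun_invol (K : ℕ) : Function.Involutive (swapFun K) := by
  intro x
  by_cases hx : x < K * K
  · have hK : 0 < K := by
      rcases Nat.eq_zero_or_pos K with h | h
      · subst h
        omega
      · exact h
    have h1 : x / K < K := Nat.div_lt_of_lt_mul hx
    have h2 : x % K < K := Nat.mod_lt x hK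
    have h3 : x = (x / K) * K + x % K := (Nat.div_add_mod' x K).symm
    have h4 : swapFun K x = (x % K) * K + x / K := by
      unfold swapFun
      rw [if_pos hx]
    rw [h4, swapFun_apply h2 h1]
    exact h3.symm
  · unfold swapFun
    rw [if_neg hx, if_neg hx]

/-- The digit exchange as a permutation of the variables. -/
def swapPerm (K : ℕ) : Perm ℕ := (swapFun_invol K).toPerm

lemma swapPerm_finite (K : ℕ) : {x | swapPerm K x ≠ x}.Finite := by
  refine Set.Finite.subset (Set.finite_lt_nat (K * K)) ?_
  intro x hx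
  by_contra h
  apply hx
  change swapFun K x = x
  unfold swapFun
  exact if_neg h

lemma mapDomain_content (σ : Perm ℕ) (u : Fin n → ℕ) :
    Finsupp.mapDomain σ (content u) = content (σ ∘ u) := by
  unfold content
  rw [Finsupp.mapDomain_finsetSum]
  refine sum_congr rfl fun i _ => ?_
  rw [Finsupp.mapDomain_single]
  rfl

lemma content_comp (u : Fin n → ℕ) (ρ : Perm (Fin n)) : content (u ∘ ρ) = content u := by
  unfold content
  exact Equiv.sum_comp ρ (fun i => Finsupp.single (u i) 1)

open Classical in
lemma num_congr {α β : Type*} (B : Multiset (Perm (Fin n))) {t : Fin n → α} {t' : Fin n → β}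
    (h : ∀ i j, t i = t j ↔ t' i = t' j) : num B t = num B t' := by
  unfold num
  congr 1
  refine Multiset.filter_congr fun b _ => ?_
  constructor
  · intro H i j hij he
    exact H i j hij ((h i j).mpr he)
  · intro H i j hij he
    exact H i j hij ((h i j).mp he)

lemma pair_inj {K a b c d : ℕ} (hb : b < K) (hd : d < K) :
    (a, b) = (c, d) ↔ a * K + b = c * K + d := by
  constructor
  · intro h
    simp only [Prod.mk.injEq] at h
    rw [h.1, h.2]
  · intro h
    have h1 : ∀ {x y : ℕ}, y < K → (x * K + y) / K = x := by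
      intro x y hy
      rw [add_comm, Nat.add_mul_div_right _ _ (by omega), Nat.div_eq_of_lt hy, zero_add]
    have h2 : ∀ {x y : ℕ}, y < K → (x * K + y) % K = y := by
      intro x y hy
      rw [add_comm, Nat.add_mul_mod_self_right, Nat.mod_eq_of_lt hy]
    have e1 : a = c := by
      rw [← h1 (x := a) hb, ← h1 (x := c) hd, h]
    have e2 : b = d := by
      rw [← h2 (x := a) hb, ← h2 (x := c) hd, h]
    rw [e1, e2]

lemma code_mono {r s : Fin n → ℕ} (hr : Monotone r) (hs : Monotone s) {K : ℕ}
    (hK : ∀ i, s i < K) {ρ : Perm (Fin n)} (hρ : Inc r ρ) :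
    Monotone (fun i => r i * K + s (ρ i)) := by
  intro i j hij
  rcases eq_or_lt_of_le hij with h | h
  · rw [h]
  · rcases eq_or_lt_of_le (hr hij) with h1 | h1
    · have h2 := hρ i j h h1
      have h3 := hs h2.le
      dsimp only
      rw [h1]
      omega
    · have h2 : (r i + 1) * K ≤ r j * K := Nat.mul_le_mul_right K h1
      have h3 := hK (ρ i)
      dsimp only
      nlinarith

/-- Symmetry of `Q(B)` exchanges the two coordinates. -/
lemma num_swap {B : Multiset (Perm (Fin n))} (hB : IsSym (genQ B)) {r s : Fin n → ℕ}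
    (hr : Monotone r) (hs : Monotone s) {ρ : Perm (Fin n)} (h1 : Inc s ρ⁻¹) (h2 : Inc r ρ) :
    num B (fun i => (r i, s (ρ i))) = num B (fun j => (s j, r (ρ⁻¹ j))) := by
  obtain ⟨K, hK⟩ : ∃ K, ∀ i, r i < K ∧ s i < K := by
    refine ⟨∑ i, (r i + s i) + 1, fun i => ?_⟩
    have := Finset.single_le_sum (f := fun i => r i + s i) (fun _ _ => Nat.zero_le _)
      (Finset.mem_univ i)
    omega
  have m1 : Monotone (fun i => r i * K + s (ρ i)) := code_mono hr hs (fun i => (hK i).2) h2
  have m2 : Monotone (fun j => s j * K + r (ρ⁻¹ j)) := code_mono hs hr (fun i => (hK i).1) h1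
  have e1 : num B (fun i => (r i, s (ρ i))) = num B (fun i => r i * K + s (ρ i)) :=
    num_congr B fun i j => pair_inj (hK _).2 (hK _).2
  have e2 : num B (fun j => (s j, r (ρ⁻¹ j))) = num B (fun j => s j * K + r (ρ⁻¹ j)) :=
    num_congr B fun i j => pair_inj (hK _).1 (hK _).1
  rw [e1, e2]
  have c1 := coeff_genQ m1 B
  have c2 := coeff_genQ m2 B
  have e3 : content (fun j => s j * K + r (ρ⁻¹ j))
      = Finsupp.mapDomain (swapPerm K) (content (fun i => r i * K + s (ρ i))) := by
    rw [mapDomain_content, ← content_comp _ ρ]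
    congr 1
    funext i
    simp only [Function.comp, inv_apply]
    change _ = swapFun K _
    rw [swapFun_apply (hK _).1 (hK _).2]
  rw [e3, hB _ (swapPerm_finite K)] at c2
  have := c1.symm.trans c2
  exact_mod_cast this

open Classical in
lemma sum_map_card {ι : Type*} (B : Multiset (Perm (Fin n))) (S : Finset ι)
    (f : ι → Fin n → ℕ × ℕ) :
    (B.map (fun b => (S.filter (fun ρ => Inc (f ρ) b)).card)).sum = ∑ ρ ∈ S, num B (f ρ) := by
  induction B using Multiset.induction_on with
  | empty => simp [num]
  | cons b B ih =>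
    rw [Multiset.map_cons, Multiset.sum_cons, ih, card_filter, ← sum_add_distrib]
    refine sum_congr rfl fun ρ _ => ?_
    unfold num
    by_cases h : Inc (f ρ) b
    · rw [if_pos h, Multiset.filter_cons_of_pos _ h, Multiset.card_cons]
      ring
    · rw [if_neg h, Multiset.filter_cons_of_neg _ h, zero_add]

lemma sum_swap {ι β : Type*} (B : Multiset β) (S : Finset ι) (f : ι → β → ℤ) :
    ∑ J ∈ S, (B.map (f J)).sum = (B.map (fun b => ∑ J ∈ S, f J b)).sum := by
  induction B using Multiset.induction_on with
  | empty => simp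
  | cons b B ih =>
    rw [Multiset.map_cons, Multiset.sum_cons, ← ih, ← sum_add_distrib]
    refine sum_congr rfl fun J _ => ?_
    rw [Multiset.map_cons, Multiset.sum_cons]

lemma sum_cast {β : Type*} (B : Multiset β) (f : β → ℕ) :
    (((B.map f).sum : ℕ) : ℤ) = (B.map (fun b => (f b : ℤ))).sum := by
  induction B using Multiset.induction_on with
  | empty => simp
  | cons b B ih =>
    rw [Multiset.map_cons, Multiset.sum_cons, Multiset.map_cons, Multiset.sum_cons, ← ih]
    push_cast
    ring

theorem main (B : Multiset (Perm (Fin n))) (hB : IsSym (genQ B)) (J : Finset ℕ) :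
    genQ (mulMS B (invDes n J)) = genQ (mulMS (invDes n J) B) := by
  classical
  rw [genQ_eq_iff]
  intro r hr
  have key := eq_zero_of_sum_powerset (fun J => (num (mulMS B (invDes n J)) r : ℤ)
    - (num (mulMS (invDes n J) B) r : ℤ)) ?_ J
  · have : (num (mulMS B (invDes n J)) r : ℤ) = num (mulMS (invDes n J) B) r := by
      linarith [key]
    exact_mod_cast this
  · intro K
    rw [sum_sub_distrib]
    set s : Fin n → ℕ := step K with hs
    have hsm : Monotone s := step_mono K
    have L1 : ∑ J ∈ K.powerset, (num (mulMS B (invDes n J)) r : ℤ)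
        = ∑ ρ ∈ univ.filter (fun ρ : Perm (Fin n) => Inc s ρ⁻¹ ∧ Inc r ρ),
          (num B (fun j => (s j, r (ρ⁻¹ j))) : ℤ) := by
      simp only [num_mulMS_left, sum_cast]
      rw [sum_swap]
      rw [← Nat.cast_sum, ← sum_map_card, sum_cast]
      congr 1
      refine Multiset.map_congr rfl fun b _ => ?_
      rw [sum_powerset, ← hs, cardR hr b]
      congr 2
      ext ρ
      simp only [mem_filter, mem_univ, true_and, and_assoc]
    have L2 : ∑ J ∈ K.powerset, (num (mulMS (invDes n J) B) r : ℤ)
        = ∑ ρ ∈ univ.filter (fun ρ : Perm (Fin n) => Inc s ρ⁻¹ ∧ Inc r ρ),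
          (num B (fun i => (r i, s (ρ i))) : ℤ) := by
      simp only [num_mulMS_right, sum_cast]
      rw [sum_swap]
      rw [← Nat.cast_sum, ← sum_map_card, sum_cast]
      congr 1
      refine Multiset.map_congr rfl fun b _ => ?_
      rw [sum_powerset, ← hs, cardL hsm b]
      congr 2
      ext ρ
      simp only [mem_filter, mem_univ, true_and, and_assoc]
    rw [L1, L2, sub_eq_zero]
    refine sum_congr rfl fun ρ hρ => ?_
    rw [mem_filter] at hρ
    rw [num_swap hB hr hsm hρ.2.1 hρ.2.2]

end Q238.MK
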